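import Pool.Agent.TH603.Sur.Forms

/-! The generic dimension of a system with multiplicities `a` or `b` at `N` points is a convex function
of the number of points with the larger multiplicity (in the language of emptiness). -/

set_option autoImplicit false

namespace Pool.Agent.TH772.QB

open Finset Pool.Agent.TH176.Nag Pool.Agent.TH603.Sur

section vs
variable {K : Type} [Field K] {ι : Type}

/-- Laurent polynomials with exponents in `S` and the multiplicities `w` at given points -/
def VS (x y : ι → K) (w : ι → ℕ) (S : Set (ℤ × ℤ)) : Submodule K ((ℤ × ℤ) →₀ K) where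
  carrier := {f | (↑f.support : Set (ℤ × ℤ)) ⊆ S ∧ ∀ i, LM f (x i) (y i) (w i)}
  add_mem' := by
    classical
    rintro f g ⟨h1, h2⟩ ⟨h3, h4⟩
    refine ⟨fun m hm => ?_, fun i => LM_add (h2 i) (h4 i)⟩
    rcases Finset.mem_union.1 (Finsupp.support_add hm) with h | h
    · exact h1 h
    · exact h3 h
  zero_mem' := by
    refine ⟨by simp, fun i P _ => by simp [pr]⟩
  smul_mem' := by
    rintro c f ⟨h1, h2⟩
    exact ⟨fun m hm => h1 (Finsupp.support_smul hm), fun i => LM_smul (h2 i) c⟩

theorem mem_VS {x y : ι → K} {w : ι → ℕ} {S : Set (ℤ × ℤ)} {f : (ℤ × ℤ) →₀ K} :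
    f ∈ VS x y w S ↔ (↑f.support : Set (ℤ × ℤ)) ⊆ S ∧ ∀ i, LM f (x i) (y i) (w i) := Iff.rfl

theorem VS_fin {x y : ι → K} {w : ι → ℕ} {S : Set (ℤ × ℤ)} (hfin : S.Finite) :
    FiniteDimensional K (VS x y w S) := by
  have : Fintype S := hfin.fintype
  have h1 : FiniteDimensional K (Finsupp.supported K K S) :=
    Module.Finite.equiv (Finsupp.supportedEquivFinsupp (M := K) (R := K) S).symm
  refine Submodule.finiteDimensional_of_le (S₂ := Finsupp.supported K K S) ?_
  intro f hf
  rw [Finsupp.mem_supported]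
  exact (mem_VS.1 hf).1

/-- the evaluation -/
noncomputable def evL (p q : K) : ((ℤ × ℤ) →₀ K) →ₗ[K] K where
  toFun f := evp f p q
  map_add' f g := evp_add f g p q
  map_smul' c f := by simp [evp_smul]

theorem evL_apply (p q : K) (f : (ℤ × ℤ) →₀ K) : evL p q f = evp f p q := rfl

theorem exists_pts [CharZero K] (n : ℕ) : ∀ (V : Submodule K ((ℤ × ℤ) →₀ K)) [FiniteDimensional K V],
    Module.finrank K V ≤ n → ∃ p q : Fin n → K, (∀ j, p j ≠ 0) ∧ (∀ j, q j ≠ 0) ∧
      ∀ f ∈ V, (∀ j, evp f (p j) (q j) = 0) → f = 0 := by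
  induction n with
  | zero =>
    intro V _ hV
    have h1 : V = ⊥ := Submodule.finrank_eq_zero.1 (Nat.le_zero.1 hV)
    refine ⟨fun _ => 1, fun _ => 1, fun _ => one_ne_zero, fun _ => one_ne_zero, fun f hf _ => ?_⟩
    rw [h1] at hf
    exact (Submodule.mem_bot K).1 hf
  | succ n ih =>
    intro V _ hV
    by_cases hb : V = ⊥
    · refine ⟨fun _ => 1, fun _ => 1, fun _ => one_ne_zero, fun _ => one_ne_zero, fun f hf _ => ?_⟩
      rw [hb] at hf
      exact (Submodule.mem_bot K).1 hf
    · obtain ⟨g, hgV, hg0⟩ := Submodule.exists_mem_ne_zero_of_ne_bot hb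
      obtain ⟨p0, q0, hp0, hq0, hpq⟩ := exists_evp_ne hg0
      have hlt : V ⊓ LinearMap.ker (evL p0 q0) < V := by
        refine lt_of_le_of_ne inf_le_left fun he => ?_
        rw [← he] at hgV
        exact hpq ((LinearMap.mem_ker.1 hgV.2))
      have h1 := Submodule.finrank_lt_finrank_of_lt hlt
      have : FiniteDimensional K (V ⊓ LinearMap.ker (evL p0 q0) : Submodule K ((ℤ × ℤ) →₀ K)) :=
        Submodule.finiteDimensional_of_le inf_le_left
      obtain ⟨p, q, hp, hq, h2⟩ := ih (V ⊓ LinearMap.ker (evL p0 q0)) (by omega)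
      refine ⟨Fin.cons p0 p, Fin.cons q0 q, ?_, ?_, ?_⟩
      · intro j
        refine Fin.cases ?_ (fun j => ?_) j
        · simpa using hp0
        · simpa using hp j
      · intro j
        refine Fin.cases ?_ (fun j => ?_) j
        · simpa using hq0
        · simpa using hq j
      · intro f hf hj
        refine h2 f ⟨hf, ?_⟩ fun j => ?_
        · have := hj 0
          simpa [LinearMap.mem_ker, evL_apply] using this
        · have := hj (Fin.succ j)
          simpa using this

/-- enough simple points -/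
theorem Emp_of_finrank [CharZero K] {x y : ι → K} (hx : ∀ i, x i ≠ 0) (hy : ∀ i, y i ≠ 0) {w : ι → ℕ}
    {S : Set (ℤ × ℤ)} (hfin : S.Finite) {n : ℕ} (hn : Module.finrank K (VS x y w S) ≤ n) :
    Emp (Sum.elim w (fun _ : Fin n => 1)) S := by
  have := VS_fin (x := x) (y := y) (w := w) hfin
  obtain ⟨p, q, hp, hq, h⟩ := exists_pts n (VS x y w S) hn
  refine ⟨K, inferInstance, inferInstance, Sum.elim x p, Sum.elim y q, ?_, ?_, ?_⟩
  · rintro (i | j)
    · exact hx i
    · exact hp j
  · rintro (i | j)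
    · exact hy i
    · exact hq j
  · intro f hfS hfL
    exact h f ⟨hfS, fun i => hfL (Sum.inl i)⟩ fun j => LM_one_iff.1 (hfL (Sum.inr j))

/-- the dimension from the simple points -/
theorem finrank_le {x y : ι → K} {w : ι → ℕ} {S : Set (ℤ × ℤ)} {n : ℕ} {p q : Fin n → K}
    (h : ∀ f : (ℤ × ℤ) →₀ K, (↑f.support : Set (ℤ × ℤ)) ⊆ S → (∀ i, LM f (x i) (y i) (w i)) →
      (∀ j, LM f (p j) (q j) 1) → f = 0) : Module.finrank K (VS x y w S) ≤ n := by
  let φ : VS x y w S →ₗ[K] (Fin n → K) :=
    LinearMap.pi fun j => (evL (p j) (q j)).comp (VS x y w S).subtype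
  have hφ : Function.Injective φ := by
    intro f g hfg
    have h1 : (f : (ℤ × ℤ) →₀ K) - g = 0 := by
      have h2 := (VS x y w S).sub_mem f.2 g.2
      refine h _ h2.1 h2.2 fun j => LM_one_iff.2 ?_
      have h3 : evL (p j) (q j) (f : (ℤ × ℤ) →₀ K) = evL (p j) (q j) (g : (ℤ × ℤ) →₀ K) :=
        congrFun hfg j
      rw [← evL_apply, map_sub, h3, sub_self]
    exact Subtype.ext (sub_eq_zero.1 h1)
  have := LinearMap.finrank_le_finrank_of_injective hφ
  simpa using this

end vs

/-- **supermodularity** -/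
theorem Emp_sm {ι : Type} [Finite ι] {u v : ι → ℕ} {S : Set (ℤ × ℤ)} (hfin : S.Finite)
    (hpos : ∀ m ∈ S, 0 ≤ m.1 ∧ 0 ≤ m.2) {p q : ℕ}
    (h1 : Emp (Sum.elim (fun i => min (u i) (v i)) (fun _ : Fin p => 1)) S)
    (h2 : Emp (Sum.elim (fun i => max (u i) (v i)) (fun _ : Fin q => 1)) S) :
    ∃ r t : ℕ, r + t ≤ p + q ∧ Emp (Sum.elim u (fun _ : Fin r => 1)) S ∧
      Emp (Sum.elim v (fun _ : Fin t => 1)) S := by
  classical
  obtain ⟨F1, hF1, hF1'⟩ := Emp_open hfin hpos h1
  obtain ⟨F2, hF2, hF2'⟩ := Emp_open hfin hpos h2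
  let e1 : (ι ⊕ Fin p) × Fin 2 → (ι ⊕ (Fin p ⊕ Fin q)) × Fin 2 :=
    Prod.map (Sum.map id Sum.inl) id
  let e2 : (ι ⊕ Fin q) × Fin 2 → (ι ⊕ (Fin p ⊕ Fin q)) × Fin 2 :=
    Prod.map (Sum.map id Sum.inr) id
  have he1 : Function.Injective e1 :=
    Function.Injective.prodMap (Sum.map_injective.2 ⟨Function.injective_id, Sum.inl_injective⟩)
      Function.injective_id
  have he2 : Function.Injective e2 :=
    Function.Injective.prodMap (Sum.map_injective.2 ⟨Function.injective_id, Sum.inr_injective⟩)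
      Function.injective_id
  have hne : MvPolynomial.rename e1 F1 * MvPolynomial.rename e2 F2 ≠ 0 := by
    refine mul_ne_zero ?_ ?_
    · rw [Ne, MvPolynomial.rename_eq_zero_iff_of_injective _ he1]
      exact hF1
    · rw [Ne, MvPolynomial.rename_eq_zero_iff_of_injective _ he2]
      exact hF2
  obtain ⟨P, hP⟩ : ∃ P : (ι ⊕ (Fin p ⊕ Fin q)) × Fin 2 → ℚ,
      MvPolynomial.aeval P (MvPolynomial.rename e1 F1 * MvPolynomial.rename e2 F2) ≠ 0 := by
    by_contra hcon
    push Not at hcon
    apply hne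
    apply MvPolynomial.funext
    intro x
    rw [map_zero]
    have := hcon x
    rwa [MvPolynomial.aeval_eq_eval] at this
  rw [map_mul, MvPolynomial.aeval_rename, MvPolynomial.aeval_rename] at hP
  obtain ⟨hn1, hz1⟩ := hF1' (P ∘ e1) (left_ne_zero_of_mul hP)
  obtain ⟨hn2, hz2⟩ := hF2' (P ∘ e2) (right_ne_zero_of_mul hP)
  let x : ι → ℚ := fun i => P (Sum.inl i, 0)
  let y : ι → ℚ := fun i => P (Sum.inl i, 1)
  have hx : ∀ i, x i ≠ 0 := fun i => hn1 (Sum.inl i, 0)
  have hy : ∀ i, y i ≠ 0 := fun i => hn1 (Sum.inl i, 1)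
  have hd1 : Module.finrank ℚ (VS x y (fun i => min (u i) (v i)) S) ≤ p := by
    refine finrank_le (p := fun j => P (Sum.inr (Sum.inl j), 0)) (q := fun j => P (Sum.inr (Sum.inl j), 1))
      fun f hf hL hL' => hz1 f hf ?_
    rintro (i | j)
    · exact hL i
    · exact hL' j
  have hd2 : Module.finrank ℚ (VS x y (fun i => max (u i) (v i)) S) ≤ q := by
    refine finrank_le (p := fun j => P (Sum.inr (Sum.inr j), 0)) (q := fun j => P (Sum.inr (Sum.inr j), 1))
      fun f hf hL hL' => hz2 f hf ?_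
    rintro (i | j)
    · exact hL i
    · exact hL' j
  have f1 := VS_fin (x := x) (y := y) (w := u) hfin
  have f2 := VS_fin (x := x) (y := y) (w := v) hfin
  have f3 := VS_fin (x := x) (y := y) (w := fun i => min (u i) (v i)) hfin
  have hsup : VS x y u S ⊔ VS x y v S ≤ VS x y (fun i => min (u i) (v i)) S := by
    refine sup_le ?_ ?_
    · intro f hf
      exact ⟨hf.1, fun i => (hf.2 i).mono (min_le_left _ _)⟩
    · intro f hf
      exact ⟨hf.1, fun i => (hf.2 i).mono (min_le_right _ _)⟩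
  have hinf : VS x y u S ⊓ VS x y v S ≤ VS x y (fun i => max (u i) (v i)) S := by
    rintro f ⟨hf1, hf2⟩
    refine ⟨hf1.1, fun i => ?_⟩
    rcases le_total (u i) (v i) with h | h
    · show LM f (x i) (y i) (max (u i) (v i))
      rw [max_eq_right h]
      exact hf2.2 i
    · show LM f (x i) (y i) (max (u i) (v i))
      rw [max_eq_left h]
      exact hf1.2 i
  have f4 := VS_fin (x := x) (y := y) (w := fun i => max (u i) (v i)) hfin
  have h3 := Submodule.finrank_mono hsup
  have h4 := Submodule.finrank_mono hinf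
  have h5 := Submodule.finrank_sup_add_finrank_inf_eq (VS x y u S) (VS x y v S)
  exact ⟨_, _, by omega, Emp_of_finrank hx hy hfin le_rfl, Emp_of_finrank hx hy hfin le_rfl⟩

/-- enough simple points exist -/
theorem exists_ones {ι : Type} (w : ι → ℕ) {S : Set (ℤ × ℤ)} (hfin : S.Finite) :
    ∃ p : ℕ, Emp (Sum.elim w (fun _ : Fin p => 1)) S := by
  have h1 := VS_fin (K := ℚ) (x := fun _ : ι => 1) (y := fun _ => 1) (w := w) hfin
  exact ⟨_, Emp_of_finrank (K := ℚ) (x := fun _ : ι => 1) (y := fun _ => 1)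
    (fun _ => one_ne_zero) (fun _ => one_ne_zero) hfin le_rfl⟩

/-- convex sequences lie below the chord -/
theorem convex_chord (N : ℕ) (G : ℕ → ℤ) (hG : ∀ e, e + 2 ≤ N → 2 * G (e + 1) ≤ G e + G (e + 2)) :
    ∀ e ≤ N, N * G e ≤ (N - e) * G 0 + e * G N := by
  rcases Nat.eq_zero_or_pos N with hN | hN
  · subst hN
    intro e he
    have : e = 0 := by omega
    subst this
    simp
  obtain ⟨H, hH⟩ : ∃ H : ℕ → ℤ, ∀ e, H e = N * G e - (N - e) * G 0 - e * G N := ⟨_, fun _ => rfl⟩
  have h0 : H 0 = 0 := by rw [hH]; push_cast; ring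
  have hNN : H N = 0 := by rw [hH]; ring
  have hc : ∀ e, e + 2 ≤ N → 2 * H (e + 1) ≤ H e + H (e + 2) := by
    intro e he
    have h1 := hG e he
    rw [hH, hH, hH]
    push_cast
    nlinarith
  suffices h : ∀ e ≤ N, H e ≤ 0 by
    intro e he
    have := h e he
    rw [hH] at this
    linarith
  -- the differences increase
  have key : ∀ k, k < N → ∀ e, e ≤ k → H (e + 1) - H e ≤ H (k + 1) - H k := by
    intro k
    induction k with
    | zero =>
      intro _ e he
      have : e = 0 := by omega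
      subst this
      exact le_rfl
    | succ k ih =>
      intro hk e he
      rcases Nat.lt_or_ge k e with h | h
      · have : e = k + 1 := by omega
        subst this
        exact le_rfl
      · have h1 := ih (by omega) e h
        have h2 := hc k (by omega)
        have h3 : k + 1 + 1 = k + 2 := rfl
        rw [h3]
        linarith
  intro e he
  by_contra hcon
  push Not at hcon
  -- the first positive value
  obtain ⟨e0, he0, hpos0, hmin⟩ : ∃ e0, e0 ≤ N ∧ 0 < H e0 ∧ ∀ e' < e0, H e' ≤ 0 := by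
    classical
    have hex : ∃ e, 0 < H e := ⟨e, hcon⟩
    refine ⟨Nat.find hex, (Nat.find_min' hex hcon).trans he, Nat.find_spec hex, fun e' he' => ?_⟩
    exact not_lt.1 (Nat.find_min hex he')
  have h00 : e0 ≠ 0 := by
    rintro rfl
    rw [h0] at hpos0
    exact lt_irrefl _ hpos0
  obtain ⟨e1, rfl⟩ : ∃ e1, e0 = e1 + 1 := ⟨e0 - 1, by omega⟩
  have hstep : 0 < H (e1 + 1) - H e1 := by
    have := hmin e1 (by omega)
    linarith
  have hinc : ∀ k, e1 + 1 ≤ k → k ≤ N → 0 < H k := by
    intro k hk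
    induction k, hk using Nat.le_induction with
    | base => intro _; exact hpos0
    | succ k hk ih =>
      intro hkN
      have h1 := ih (by omega)
      have h2 := key k (by omega) e1 (by omega)
      linarith
  have := hinc N (by omega) le_rfl
  rw [hNN] at this
  exact lt_irrefl _ this

/-- the weights: `b` on the first `e` points, `a` on the others, and the spectators -/
def wt {κ : Type} (N a b e : ℕ) (W : κ → ℕ) : Fin N ⊕ κ → ℕ :=
  Sum.elim (fun i => if (i : ℕ) < e then b else a) W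

/-- the weights: `b` on the first `e` points and on the point `e + 1`, `a` on the others -/
def wt' {κ : Type} (N a b e : ℕ) (W : κ → ℕ) : Fin N ⊕ κ → ℕ :=
  Sum.elim (fun i => if (i : ℕ) < e ∨ (i : ℕ) = e + 1 then b else a) W

theorem Emp_wt'_iff {κ : Type} {N a b e p : ℕ} (he : e + 2 ≤ N) {W : κ → ℕ} {S : Set (ℤ × ℤ)}
    (h : Emp (Sum.elim (wt' N a b e W) (fun _ : Fin p => 1)) S) :
    Emp (Sum.elim (wt N a b (e + 1) W) (fun _ : Fin p => 1)) S := by
  let s : Equiv.Perm (Fin N) := Equiv.swap ⟨e, by omega⟩ ⟨e + 1, by omega⟩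
  refine Emp_emb (Sum.map (Sum.map s id) id) ?_ ?_ h
  · exact Sum.map_injective.2 ⟨Sum.map_injective.2 ⟨s.injective, Function.injective_id⟩,
      Function.injective_id⟩
  · rintro ((i | k) | j)
    · simp only [Sum.elim_inl, wt', wt, Sum.map_inl]
      rcases eq_or_ne i ⟨e, by omega⟩ with h1 | h1
      · subst h1
        rw [Equiv.swap_apply_left]
        simp
      · rcases eq_or_ne i ⟨e + 1, by omega⟩ with h2 | h2
        · subst h2
          rw [Equiv.swap_apply_right]
          simp
        · rw [Equiv.swap_apply_of_ne_of_ne h1 h2]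
          have h1' : (i : ℕ) ≠ e := fun h => h1 (Fin.ext h)
          have h2' : (i : ℕ) ≠ e + 1 := fun h => h2 (Fin.ext h)
          split_ifs <;> omega
    · simp [wt', wt]
    · simp

/-- **convexity in the number of points with the larger multiplicity** -/
theorem conv_wt {κ : Type} [Finite κ] {N a b : ℕ} (hab : a ≤ b) (W : κ → ℕ) {S : Set (ℤ × ℤ)}
    (hfin : S.Finite) (hpos : ∀ m ∈ S, 0 ≤ m.1 ∧ 0 ≤ m.2) {p0 pN : ℕ}
    (h0 : Emp (Sum.elim (wt N a b 0 W) (fun _ : Fin p0 => 1)) S)
    (hN : Emp (Sum.elim (wt N a b N W) (fun _ : Fin pN => 1)) S) {e : ℕ} (he : e ≤ N) {p : ℕ}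
    (hp : (N - e : ℕ) * p0 + e * pN < N * (p + 1)) :
    Emp (Sum.elim (wt N a b e W) (fun _ : Fin p => 1)) S := by
  classical
  have hex : ∀ e, ∃ p : ℕ, Emp (Sum.elim (wt N a b e W) (fun _ : Fin p => 1)) S :=
    fun e => exists_ones _ hfin
  have hmono : ∀ {e p p' : ℕ}, p ≤ p' → Emp (Sum.elim (wt N a b e W) (fun _ : Fin p => 1)) S →
      Emp (Sum.elim (wt N a b e W) (fun _ : Fin p' => 1)) S := by
    intro e p p' hpp h
    refine Emp_emb (Sum.map id (Fin.castLE hpp)) ?_ ?_ h
    · exact Sum.map_injective.2 ⟨Function.injective_id, Fin.castLE_injective hpp⟩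
    · rintro (i | i) <;> simp
  obtain ⟨g, hg⟩ : ∃ g : ℕ → ℕ, g = fun e => Nat.find (hex e) := ⟨_, rfl⟩
  have hg1 : ∀ e, Emp (Sum.elim (wt N a b e W) (fun _ : Fin (g e) => 1)) S := by
    intro e
    rw [hg]
    exact Nat.find_spec (hex e)
  have hg2 : ∀ {e p : ℕ}, Emp (Sum.elim (wt N a b e W) (fun _ : Fin p => 1)) S → g e ≤ p := by
    intro e p h
    rw [hg]
    exact Nat.find_min' (hex e) h
  have hconv : ∀ e, e + 2 ≤ N → 2 * (g (e + 1) : ℤ) ≤ (g e : ℤ) + (g (e + 2) : ℤ) := by
    intro e he2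
    have e1 : (fun i => min (wt N a b (e + 1) W i) (wt' N a b e W i)) = wt N a b e W := by
      funext i
      rcases i with i | k
      · simp only [wt, wt', Sum.elim_inl]
        split_ifs <;> omega
      · simp [wt, wt']
    have e2 : (fun i => max (wt N a b (e + 1) W i) (wt' N a b e W i)) = wt N a b (e + 2) W := by
      funext i
      rcases i with i | k
      · simp only [wt, wt', Sum.elim_inl]
        split_ifs <;> omega
      · simp [wt, wt']
    obtain ⟨r, t, hrt, hr, ht⟩ := Emp_sm (u := wt N a b (e + 1) W) (v := wt' N a b e W) hfin hpos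
      (p := g e) (q := g (e + 2)) (by rw [e1]; exact hg1 e) (by rw [e2]; exact hg1 (e + 2))
    have h1 := hg2 hr
    have h2 := hg2 (Emp_wt'_iff he2 ht)
    omega
  have hch := convex_chord N (fun e => (g e : ℤ)) hconv e he
  have h1 := hg2 h0
  have h2 := hg2 hN
  refine hmono ?_ (hg1 e)
  by_contra hcon
  push Not at hcon
  have h3 : (N : ℤ) * (p + 1) ≤ N * (g e : ℤ) := by
    have : ((p : ℤ) + 1) ≤ g e := by exact_mod_cast hcon
    exact mul_le_mul_of_nonneg_left this (by positivity)
  have h4 : ((N : ℤ) - e) * (g 0 : ℤ) ≤ ((N : ℤ) - e) * p0 := by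
    apply mul_le_mul_of_nonneg_left (by exact_mod_cast h1)
    have : (e : ℤ) ≤ N := by exact_mod_cast he
    linarith
  have h5 : (e : ℤ) * (g N : ℤ) ≤ e * pN := mul_le_mul_of_nonneg_left (by exact_mod_cast h2) (by positivity)
  have h6 : ((N - e : ℕ) : ℤ) = (N : ℤ) - e := by push_cast [Nat.cast_sub he]; ring
  have h7 : (((N - e : ℕ) : ℤ) * p0 + e * pN) < N * ((p : ℤ) + 1) := by exact_mod_cast hp
  rw [h6] at h7
  linarith

/-- **only the two ends are needed** -/
theorem conv_ends {κ : Type} [Finite κ] {N a b q s s' : ℕ} (hab : a ≤ b) (hs : s' ≤ s) (W : κ → ℕ)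
    {S : Set (ℤ × ℤ)} (hfin : S.Finite) (hpos : ∀ m ∈ S, 0 ≤ m.1 ∧ 0 ≤ m.2)
    (h0 : Emp (Sum.elim (Sum.elim (fun _ : Fin N => a) W) (fun _ : Fin (N * q + s) => 1)) S)
    (hN : Emp (Sum.elim (Sum.elim (fun _ : Fin N => b) W) (fun _ : Fin s' => 1)) S)
    {e f : ℕ} (hef : e + f = N) :
    Emp (Sum.elim (Sum.elim (Sum.elim (fun _ : Fin e => b) (fun _ : Fin f => a)) W)
      (fun _ : Fin (f * q + s) => 1)) S := by
  classical
  subst hef
  rcases Nat.eq_zero_or_pos (e + f) with hN0 | hN0
  · refine Emp_emb (Sum.map (Sum.map (fun i : Fin (e + f) => (finSumFinEquiv.symm i)) id)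
      (Fin.castLE (show (e + f) * q + s ≤ f * q + s by
        have hf0 : f = 0 := by omega
        rw [hN0, hf0]))) ?_ ?_ h0
    · exact Sum.map_injective.2 ⟨Sum.map_injective.2 ⟨finSumFinEquiv.symm.injective,
        Function.injective_id⟩, Fin.castLE_injective _⟩
    · rintro ((i | k) | j)
      · simp only [Sum.elim_inl, Sum.map_inl]
        obtain ⟨z, rfl⟩ := finSumFinEquiv.surjective i
        rw [Equiv.symm_apply_apply]
        rcases z with z | z
        · simpa using hab
        · simp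
      · simp
      · simp
  have key := conv_wt (N := e + f) (e := e) (p := f * q + s) hab W hfin hpos (p0 := (e + f) * q + s)
    (pN := s') (by
      refine Emp_emb id Function.injective_id ?_ h0
      rintro ((i | k) | j) <;> simp [wt]) (by
      refine Emp_emb id Function.injective_id ?_ hN
      rintro ((i | k) | j) <;> simp [wt]) (by omega) (by
      have h1 : (e + f - e : ℕ) = f := by omega
      rw [h1]
      have h2 : e * s' ≤ e * s := Nat.mul_le_mul_left _ hs
      nlinarith)
  refine Emp_emb (Sum.map (Sum.map (fun i : Fin (e + f) => (finSumFinEquiv.symm i)) id) id) ?_ ?_ key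
  · exact Sum.map_injective.2 ⟨Sum.map_injective.2 ⟨finSumFinEquiv.symm.injective, Function.injective_id⟩,
      Function.injective_id⟩
  · rintro ((i | k) | j)
    · simp only [Sum.elim_inl, Sum.map_inl, wt]
      obtain ⟨z, rfl⟩ := finSumFinEquiv.surjective i
      rw [Equiv.symm_apply_apply]
      rcases z with z | z
      · simp
      · simp
    · simp [wt]
    · simp

end Pool.Agent.TH772.QB
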